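import Mathlib

set_option autoImplicit false

namespace Pool.Agent.Results.MP_37b92f_co.Additive

open Filter Topology

/-- An ordered graph: a finite simple graph on `Fin n` with the natural order. -/
structure OGraph where
  n : ℕ
  G : SimpleGraph (Fin n)

/-- Number of edges. -/
noncomputable def OGraph.e (G : OGraph) : ℕ := G.G.edgeSet.ncard

/-- Embeddings: strictly increasing maps sending edges to edges. -/
def Emb (H G : OGraph) : Type :=
  {φ : Fin H.n → Fin G.n // StrictMono φ ∧ ∀ u v, H.G.Adj u v → G.G.Adj (φ u) (φ v)}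

/-- A subgraph `G'` of `G`, with the inherited order, is `F`-free. -/
def Free (F G : OGraph) (G' : G.G.Subgraph) : Prop :=
  ¬ ∃ φ : Fin F.n → Fin G.n, StrictMono φ ∧ (∀ u, φ u ∈ G'.verts) ∧
    ∀ u v, F.G.Adj u v → G'.Adj (φ u) (φ v)

/-- The largest proportion of edges in an `F`-free subgraph of `G`. -/
noncomputable def rhoIn (F G : OGraph) : ℝ :=
  sSup {x : ℝ | ∃ G' : G.G.Subgraph, Free F G G' ∧ x = (G'.edgeSet.ncard : ℝ) / (G.e : ℝ)}

/-- The relative Turan density. -/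
noncomputable def rho (F : OGraph) : ℝ :=
  sInf {x : ℝ | ∃ G : OGraph, 1 ≤ G.e ∧ x = rhoIn F G}

/-- Universal sequences. -/
def Universal (G : ℕ → OGraph) : Prop :=
  (∀ n, 1 ≤ (G n).e) ∧ ∀ F : OGraph, Tendsto (fun n => rhoIn F (G n)) atTop (𝓝 (rho F))

/-- The probability that the edge `e` is in the image of the edge set of `H`. -/
noncomputable def hitProb {H G : OGraph} (Φ : PMF (Emb H G)) (e : Sym2 (Fin G.n)) : ℝ :=
  (Φ.toOuterMeasure {φ | ∃ u v, H.G.Adj u v ∧ e = s(φ.1 u, φ.1 v)}).toReal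

/-- The complete ordered graph. -/
def K (r : ℕ) : OGraph := ⟨r, ⊤⟩

theorem ratio_le_one (G : OGraph) (G' : G.G.Subgraph) :
    (G'.edgeSet.ncard : ℝ) / (G.e : ℝ) ≤ 1 := by
  apply div_le_one_of_le₀ _ (Nat.cast_nonneg _)
  exact_mod_cast Set.ncard_le_ncard G'.edgeSet_subset (Set.toFinite _)

theorem rhoIn_nonneg (F G : OGraph) : 0 ≤ rhoIn F G := by
  apply Real.sSup_nonneg
  rintro x ⟨G', -, rfl⟩
  positivity

theorem K_e_pos (r : ℕ) : 1 ≤ (K (r + 2)).e := by
  have : (K (r + 2)).G.edgeSet.Nonempty :=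
    ⟨s((0 : Fin (r + 2)), (1 : Fin (r + 2))),
      show (⊤ : SimpleGraph (Fin (r + 2))).Adj 0 1 from by simp⟩
  exact (Set.ncard_pos (Set.toFinite _)).mpr this

theorem rho_K_lt_one (r : ℕ) : rho (K (r + 2)) < 1 := by
  have hpos := K_e_pos r
  have h1 : rho (K (r + 2)) ≤ rhoIn (K (r + 2)) (K (r + 2)) := by
    apply csInf_le
    · refine ⟨0, ?_⟩
      rintro x ⟨G, -, rfl⟩
      exact rhoIn_nonneg _ _
    · exact ⟨_, hpos, rfl⟩
  have he : (0 : ℝ) < (K (r + 2)).e := by exact_mod_cast hpos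
  have h2 : rhoIn (K (r + 2)) (K (r + 2)) ≤ (((K (r + 2)).e : ℝ) - 1) / (K (r + 2)).e := by
    apply Real.sSup_le
    · rintro x ⟨G', hfree, rfl⟩
      apply div_le_div_of_nonneg_right _ he.le
      have hlt : G'.edgeSet.ncard < (K (r + 2)).e := by
        apply Set.ncard_lt_ncard _ (Set.toFinite _)
        refine ⟨G'.edgeSet_subset, fun hsub => hfree ⟨id, strictMono_id, ?_, ?_⟩⟩
        · intro u
          obtain ⟨v, hv⟩ := exists_ne (α := Fin (r + 2)) u
          have : s(u, v) ∈ G'.edgeSet := hsub (show (⊤ : SimpleGraph (Fin (r + 2))).Adj u v from hv.symm)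
          exact G'.edge_vert this
        · intro u v huv
          exact hsub (show s(u, v) ∈ (K (r + 2)).G.edgeSet from huv)
      have : (G'.edgeSet.ncard : ℝ) + 1 ≤ (K (r + 2)).e := by exact_mod_cast hlt
      linarith
    · apply div_nonneg _ he.le
      have : (1 : ℝ) ≤ (K (r + 2)).e := by exact_mod_cast hpos
      linarith
  refine lt_of_le_of_lt (h1.trans h2) ?_
  rw [div_lt_one he]
  linarith

theorem rhoIn_eq_one {F G : OGraph} (hG : 1 ≤ G.e) (h : IsEmpty (Emb F G)) : 1 ≤ rhoIn F G := by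
  apply le_csSup
  · refine ⟨1, ?_⟩
    rintro x ⟨G', -, rfl⟩
    exact ratio_le_one G G'
  · refine ⟨⊤, ?_, ?_⟩
    · rintro ⟨φ, h1, -, h3⟩
      exact h.false ⟨φ, h1, fun u v huv => h3 u v huv⟩
    · have he : (0 : ℝ) < G.e := by exact_mod_cast hG
      rw [SimpleGraph.Subgraph.edgeSet_top]
      exact (div_self he.ne').symm

theorem eventually_clique {G : ℕ → OGraph} (hG : Universal G) (r : ℕ) :
    ∀ᶠ n in atTop, Nonempty (Emb (K (r + 2)) (G n)) := by
  filter_upwards [(hG.2 (K (r + 2))).eventually (gt_mem_nhds (rho_K_lt_one r))] with n hn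
  by_contra h
  exact absurd (rhoIn_eq_one (hG.1 n) (not_nonempty_iff.mp h)) (not_le.mpr hn)

theorem card_le_e {G : OGraph} {r : ℕ} (ψ : Emb (K (r + 2)) G) : r ≤ G.e := by
  let f : Fin (r + 1) → Sym2 (Fin G.n) := fun i => s(ψ.1 (0 : Fin (r + 2)), ψ.1 (i.succ : Fin (r + 2)))
  have hinj : Function.Injective f := by
    intro i j hij
    have h := Sym2.congr_right.mp hij
    exact Fin.succ_injective _ (ψ.2.1.injective h)
  have hsub : Set.range f ⊆ G.G.edgeSet := by
    rintro _ ⟨i, rfl⟩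
    exact ψ.2.2 _ _ (by simpa [K] using (Fin.succ_ne_zero i).symm)
  have h1 := Set.ncard_le_ncard hsub (Set.toFinite _)
  rw [Set.ncard_range_of_injective hinj] at h1
  simp only [Nat.card_eq_fintype_card, Fintype.card_fin] at h1
  unfold OGraph.e
  omega

theorem exists_spread (H G : OGraph) (t : ℕ) (ψ : Emb (K (H.n * (t + 1) + 2)) G) :
    ∃ Φ : PMF (Emb H G), ∀ e, hitProb Φ e ≤ 1 / ((t : ℝ) + 1) := by
  classical
  have hlt : ∀ (j : Fin (t + 1)) (u : Fin H.n), H.n * j + u < H.n * (t + 1) + 2 := by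
    intro j u
    have h1 : (j : ℕ) + 1 ≤ t + 1 := j.2
    have h2 : H.n * (j + 1) ≤ H.n * (t + 1) := Nat.mul_le_mul_left _ h1
    have h3 := u.2
    rw [Nat.mul_succ] at h2
    omega
  let pos : Fin (t + 1) → Fin H.n → Fin (H.n * (t + 1) + 2) := fun j u => ⟨H.n * j + u, hlt j u⟩
  have hmono : ∀ j, StrictMono (pos j) := by
    intro j u v huv
    show H.n * j + u < H.n * j + v
    exact Nat.add_lt_add_left huv _
  let blk : Fin (t + 1) → Emb H G := fun j =>
    ⟨fun u => ψ.1 (pos j u), ψ.2.1.comp (hmono j), fun u v huv =>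
      ψ.2.2 _ _ (by
        have : pos j u ≠ pos j v := fun h => huv.ne ((hmono j).injective h)
        simpa [K] using this)⟩
  have hblk : ∀ j j' u u', pos j u = pos j' u' → j = j' := by
    intro j j' u u' h
    have h1 : H.n * j + u = H.n * j' + u' := congrArg Fin.val h
    have hu := u.2
    have hu' := u'.2
    have hn : 0 < H.n := by omega
    have e1 : (H.n * j + u) / H.n = j := by
      rw [Nat.mul_add_div hn, Nat.div_eq_of_lt hu, add_zero]
    have e2 : (H.n * j' + u') / H.n = j' := by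
      rw [Nat.mul_add_div hn, Nat.div_eq_of_lt hu', add_zero]
    apply Fin.ext
    rw [← e1, ← e2, h1]
  refine ⟨(PMF.uniformOfFintype (Fin (t + 1))).map blk, fun e => ?_⟩
  unfold hitProb
  rw [PMF.toOuterMeasure_map_apply, PMF.toOuterMeasure_uniformOfFintype_apply]
  have hcard : Fintype.card
      (blk ⁻¹' {φ : Emb H G | ∃ u v, H.G.Adj u v ∧ e = s(φ.1 u, φ.1 v)} : Set (Fin (t + 1))) ≤ 1 := by
    rw [Fintype.card_le_one_iff]
    rintro ⟨j, u, v, -, h1⟩ ⟨j', u', v', -, h2⟩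
    apply Subtype.ext
    have h3 : s(ψ.1 (pos j u), ψ.1 (pos j v)) = s(ψ.1 (pos j' u'), ψ.1 (pos j' v')) :=
      h1.symm.trans h2
    rcases Sym2.eq_iff.mp h3 with ⟨h4, -⟩ | ⟨h4, -⟩
    · exact hblk _ _ _ _ (ψ.2.1.injective h4)
    · exact hblk _ _ _ _ (ψ.2.1.injective h4)
  rw [ENNReal.toReal_div]
  simp only [ENNReal.toReal_natCast, Fintype.card_fin, Nat.cast_add, Nat.cast_one]
  have h5 : ((t : ENNReal) + 1).toReal = (t : ℝ) + 1 := by
    rw [ENNReal.toReal_add (by simp) (by simp)]; simp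
  rw [h5]
  apply div_le_div_of_nonneg_right _ (by positivity)
  exact_mod_cast hcard

theorem result (G : ℕ → OGraph) (hG : Universal G) (H : OGraph) :
    ∃ (N : ℕ) (Φ : ∀ m : ℕ, PMF (Emb H (G (N + m)))),
      Tendsto (fun m : ℕ => (⨆ e : (G (N + m)).G.edgeSet, hitProb (Φ m) e) -
        (H.e : ℝ) / ((G (N + m)).e : ℝ)) atTop (𝓝 0) := by
  classical
  let P : ℕ → ℕ → Prop := fun n t =>
    Nonempty (Emb (K (H.n * (t + 1) + 2)) (G n)) ∧ Nonempty (Emb (K (t + 2)) (G n))
  have hP : ∀ t, ∀ᶠ n in atTop, P n t := fun t =>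
    (eventually_clique hG _).and (eventually_clique hG _)
  obtain ⟨N, hN⟩ := eventually_atTop.mp (hP 0)
  let T : ℕ → ℕ := fun m => Nat.findGreatest (P (N + m)) m
  have hT : ∀ m, P (N + m) (T m) := fun m =>
    Nat.findGreatest_spec (Nat.zero_le m) (hN _ (Nat.le_add_right _ _))
  have hTtop : Tendsto T atTop atTop := by
    rw [tendsto_atTop]
    intro t
    obtain ⟨M, hM⟩ := eventually_atTop.mp (hP t)
    filter_upwards [eventually_ge_atTop M, eventually_ge_atTop t] with m h1 h2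
    exact Nat.le_findGreatest h2 (hM _ (by omega))
  choose Φ hΦ using fun m => exists_spread H (G (N + m)) (T m) (hT m).1.some
  refine ⟨N, Φ, ?_⟩
  have hTR : Tendsto (fun m => (T m : ℝ)) atTop atTop := tendsto_natCast_atTop_atTop.comp hTtop
  have h1 : Tendsto (fun m => ⨆ e : (G (N + m)).G.edgeSet, hitProb (Φ m) e) atTop (𝓝 0) := by
    have hb : Tendsto (fun m => 1 / ((T m : ℝ) + 1)) atTop (𝓝 0) :=
      tendsto_const_nhds.div_atTop (tendsto_atTop_add_const_right _ _ hTR)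
    refine squeeze_zero (fun m => ?_) (fun m => ?_) hb
    · exact Real.iSup_nonneg fun e => ENNReal.toReal_nonneg
    · exact Real.iSup_le (fun e => hΦ m e) (by positivity)
  have h2 : Tendsto (fun m => (H.e : ℝ) / ((G (N + m)).e : ℝ)) atTop (𝓝 0) := by
    apply tendsto_const_nhds.div_atTop
    refine tendsto_atTop_mono (fun m => ?_) hTR
    exact_mod_cast card_le_e (hT m).2.some
  simpa using h1.sub h2

end Pool.Agent.Results.MP_37b92f_co.Additive
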