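import Pool.Agent.Lib.MP_37b92f_co.Final
import Pool.Agent.Lib.MP_37b92f_co.Pos

set_option autoImplicit false

namespace Pool.Agent.Results.MP_37b92f_co.Normalised

open Filter Pool.Agent.Lib.MP_37b92f_co

/-- There is a universal sequence of ordered graphs into which the complete ordered graph on
400000 vertices embeds for all large indices, but every random embedding hits some edge with
probability at least `1 + 1/8192` times the average value `e(H)/e(G n)`. -/
theorem result :
    ∃ G : ℕ → OGraph, Universal G ∧ (∀ᶠ n in atTop, Nonempty (Emb (K 400000) (G n))) ∧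
      ∀ (n : ℕ) (Φ : PMF (Emb (K 400000) (G n))), ∃ e ∈ (G n).G.edgeSet,
        (1 + 1 / 8192) * (((K 400000).e : ℝ) / (G n).e) ≤ hitProb Φ e :=
  main_of_pos posThm

end Pool.Agent.Results.MP_37b92f_co.Normalised
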